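import Mathlib

/-!
# Monotone `G_δ` representatives of Lebesgue measurable sets

For a Lebesgue measurable set `M` of reals let `ψ M` be the set of the points at which the upper
density of `M` is larger than one half, in the sense that for every `n` there is a radius
`r < 1 / (n + 1)` such that more than one half of the interval `(x - r, x + r)` belongs to `M`. For
a fixed `r` the set of these `x` is open, so `ψ M` is a `G_δ` set. It depends on `M` only modulo
null sets, it is monotone, and by the Lebesgue density theorem it agrees with `M` almost everywhere.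
-/

set_option autoImplicit false

open MeasureTheory Set Filter Topology Metric

namespace Pool.Agent.Results.MP_2abcfb_lc.MonotoneGdelta

/-- the points `x` such that more than one half of the interval `(x - r, x + r)` belongs to `M` -/
def half (M : Set ℝ) (r : ℝ) : Set ℝ := {x | ENNReal.ofReal r < volume (M ∩ ball x r)}

/-- the points where the upper density of `M` is larger than one half -/
def psi (M : Set ℝ) : Set ℝ := ⋂ n : ℕ, ⋃ r ∈ Ioo (0 : ℝ) (1 / ((n : ℝ) + 1)), half M r

lemma isOpen_half (M : Set ℝ) (r : ℝ) : IsOpen (half M r) := by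
  rw [Metric.isOpen_iff]
  intro x hx
  have hx' : ENNReal.ofReal r < volume (M ∩ ball x r) := hx
  -- continuity from below
  have hU : M ∩ ball x r = ⋃ n : ℕ, M ∩ ball x (r - 1 / ((n : ℝ) + 1)) := by
    ext y
    simp only [mem_inter_iff, mem_ball, mem_iUnion]
    constructor
    · rintro ⟨h1, h2⟩
      obtain ⟨n, hn⟩ := exists_nat_one_div_lt (sub_pos.2 h2)
      exact ⟨n, h1, by linarith⟩
    · rintro ⟨n, h1, h2⟩
      have : (0 : ℝ) < 1 / ((n : ℝ) + 1) := by positivity
      exact ⟨h1, by linarith⟩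
  have hmono : Monotone fun n : ℕ => M ∩ ball x (r - 1 / ((n : ℝ) + 1)) := by
    intro m n hmn
    refine inter_subset_inter_right _ (ball_subset_ball ?_)
    have : (1 : ℝ) / ((n : ℝ) + 1) ≤ 1 / ((m : ℝ) + 1) :=
      one_div_le_one_div_of_le (by positivity) (by exact_mod_cast Nat.succ_le_succ hmn)
    linarith
  rw [hU, hmono.measure_iUnion] at hx'
  obtain ⟨n, hn⟩ := lt_iSup_iff.1 hx'
  refine ⟨1 / ((n : ℝ) + 1), by positivity, fun y hy => ?_⟩
  show ENNReal.ofReal r < volume (M ∩ ball y r)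
  refine hn.trans_le (measure_mono (inter_subset_inter_right _ ?_))
  intro z hz
  rw [mem_ball] at hz hy ⊢
  have h1 := dist_triangle z x y
  rw [dist_comm x y] at h1
  linarith

lemma isGδ_psi (M : Set ℝ) : IsGδ (psi M) := by
  refine IsGδ.iInter_of_isOpen fun n => ?_
  exact isOpen_biUnion fun r _ => isOpen_half M r

lemma psi_mono {M M' : Set ℝ} (h : volume (M \ M') = 0) : psi M ⊆ psi M' := by
  refine iInter_mono fun n => iUnion₂_mono fun r _ => fun x hx => ?_
  refine lt_of_lt_of_le (show ENNReal.ofReal r < volume (M ∩ ball x r) from hx) ?_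
  have h1 : M ∩ ball x r ⊆ (M' ∩ ball x r) ∪ (M \ M') := by
    intro y hy
    by_cases h2 : y ∈ M'
    · exact Or.inl ⟨h2, hy.2⟩
    · exact Or.inr ⟨hy.1, h2⟩
  calc volume (M ∩ ball x r) ≤ volume ((M' ∩ ball x r) ∪ (M \ M')) := measure_mono h1
    _ ≤ volume (M' ∩ ball x r) + volume (M \ M') := measure_union_le _ _
    _ = volume (M' ∩ ball x r) := by rw [h, add_zero]

lemma ball_eq (M : Set ℝ) (x r : ℝ) : volume (M ∩ ball x r) = volume (M ∩ closedBall x r) := by
  refine le_antisymm (measure_mono (inter_subset_inter_right _ ball_subset_closedBall)) ?_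
  have h1 : M ∩ closedBall x r ⊆ (M ∩ ball x r) ∪ {x - r, x + r} := by
    rintro y ⟨hy1, hy2⟩
    rw [Real.closedBall_eq_Icc, mem_Icc] at hy2
    by_cases h3 : y = x - r
    · exact Or.inr (Or.inl h3)
    by_cases h4 : y = x + r
    · exact Or.inr (Or.inr h4)
    refine Or.inl ⟨hy1, ?_⟩
    rw [Real.ball_eq_Ioo, mem_Ioo]
    exact ⟨lt_of_le_of_ne hy2.1 (Ne.symm h3), lt_of_le_of_ne hy2.2 h4⟩
  calc volume (M ∩ closedBall x r) ≤ volume ((M ∩ ball x r) ∪ {x - r, x + r}) := measure_mono h1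
    _ ≤ volume (M ∩ ball x r) + volume ({x - r, x + r} : Set ℝ) := measure_union_le _ _
    _ = volume (M ∩ ball x r) := by
        rw [(Set.toFinite ({x - r, x + r} : Set ℝ)).measure_zero, add_zero]

lemma mem_half_iff (M : Set ℝ) (x : ℝ) {r : ℝ} (hr : 0 < r) :
    x ∈ half M r ↔ 1 / 2 < volume (M ∩ closedBall x r) / volume (closedBall x r) := by
  show ENNReal.ofReal r < volume (M ∩ ball x r) ↔ _
  rw [ball_eq, Real.volume_closedBall, ENNReal.lt_div_iff_mul_lt (Or.inl ?_) (Or.inl ?_)]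
  · have : (1 / 2 : ENNReal) * ENNReal.ofReal (2 * r) = ENNReal.ofReal r := by
      rw [ENNReal.ofReal_mul (by norm_num)]
      have h2 : ENNReal.ofReal 2 = 2 := by norm_num
      rw [h2, ← mul_assoc, one_div, ENNReal.inv_mul_cancel (by norm_num) (by norm_num), one_mul]
    rw [this]
  · exact (ENNReal.ofReal_pos.2 (by linarith)).ne'
  · exact ENNReal.ofReal_ne_top

lemma psi_ae (M : Set ℝ) (hM : NullMeasurableSet M volume) : psi M =ᵐ[volume] M := by
  obtain ⟨M0, hM0, hMM⟩ : ∃ M0, MeasurableSet M0 ∧ M0 =ᵐ[volume] M :=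
    ⟨toMeasurable volume M, measurableSet_toMeasurable _ _, hM.toMeasurable_ae_eq⟩
  have hvol : ∀ x r, volume (M0 ∩ closedBall x r) = volume (M ∩ closedBall x r) :=
    fun x r => measure_congr (hMM.inter (ae_eq_refl _))
  filter_upwards [Besicovitch.ae_tendsto_measure_inter_div_of_measurableSet (volume : Measure ℝ) hM0,
    hMM] with x hx hxM
  have hxM' : x ∈ M0 ↔ x ∈ M := by
    constructor <;> intro h
    · exact hxM.mp h
    · exact hxM.mpr h
  suffices h : x ∈ psi M ↔ x ∈ M0 from propext (h.trans hxM')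
  simp only [hvol] at hx
  by_cases hmem : x ∈ M0
  · refine ⟨fun _ => hmem, fun _ => ?_⟩
    rw [indicator_of_mem hmem] at hx
    have h1 : ∀ᶠ r in 𝓝[>] (0 : ℝ), 1 / 2 < volume (M ∩ closedBall x r) / volume (closedBall x r) :=
      hx.eventually_const_lt (by norm_num)
    refine mem_iInter.2 fun n => ?_
    have h2 : ∀ᶠ r in 𝓝[>] (0 : ℝ), r ∈ Ioo (0 : ℝ) (1 / ((n : ℝ) + 1)) :=
      Ioo_mem_nhdsGT (by positivity)
    obtain ⟨r, hr1, hr2⟩ := (h1.and h2).exists
    exact mem_iUnion₂.2 ⟨r, hr2, (mem_half_iff M x hr2.1).2 hr1⟩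
  · refine ⟨fun h => ?_, fun h => absurd h hmem⟩
    exfalso
    rw [indicator_of_notMem hmem] at hx
    have h1 : ∀ᶠ r in 𝓝[>] (0 : ℝ), volume (M ∩ closedBall x r) / volume (closedBall x r) < 1 / 2 :=
      hx.eventually_lt_const (by norm_num)
    obtain ⟨δ, hδ, h2⟩ := mem_nhdsGT_iff_exists_Ioo_subset.1 h1
    obtain ⟨n, hn⟩ := exists_nat_one_div_lt (show (0 : ℝ) < δ from hδ)
    obtain ⟨r, hr1, hr2⟩ := mem_iUnion₂.1 (mem_iInter.1 h n)
    have h3 := (mem_half_iff M x hr1.1).1 hr2
    exact absurd (h2 ⟨hr1.1, hr1.2.trans hn⟩) (not_lt.2 h3.le)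

/-- There is a map `ψ` from the family of Lebesgue measurable sets of reals to the family of `G_δ`
sets such that `ψ M` agrees with `M` up to a null set, `ψ` is monotone, and `ψ M = ψ M'` whenever
`M` and `M'` agree up to a null set. (In fact `ψ M ⊆ ψ M'` whenever `M \ M'` is a null set.) -/
theorem result :
    ∃ ψ : {M : Set ℝ // NullMeasurableSet M (volume : Measure ℝ)} → {G : Set ℝ // IsGδ G},
      (∀ M, volume (symmDiff M.1 (ψ M).1) = 0) ∧
      (∀ M M', M.1 ⊆ M'.1 → (ψ M).1 ⊆ (ψ M').1) ∧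
      (∀ M M', volume (symmDiff M.1 M'.1) = 0 → ψ M = ψ M') ∧
      (∀ M M', volume (M.1 \ M'.1) = 0 → (ψ M).1 ⊆ (ψ M').1) := by
  refine ⟨fun M => ⟨psi M.1, isGδ_psi M.1⟩, fun M => ?_, fun M M' h => ?_, fun M M' h => ?_,
    fun M M' h => psi_mono h⟩
  · exact measure_symmDiff_eq_zero_iff.2 (psi_ae M M.2).symm
  · refine psi_mono ?_
    rw [sdiff_eq_empty.2 h, measure_empty]
  · rw [Set.symmDiff_def, measure_union_null_iff] at h
    exact Subtype.ext (subset_antisymm (psi_mono h.1) (psi_mono h.2))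

end Pool.Agent.Results.MP_2abcfb_lc.MonotoneGdelta
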